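import Mathlib
import Pool.Agent.Q70.CT.PoleMain

/-!
# Tate's formula for the poles of the zeta functions of the products of all varieties with abelian
varieties of almost all slope types of all CM fields

Let `K i` (`i` in a finite set) be CM fields of degree `2 g i`. Nothing is assumed about their Galois
groups. They are pairwise independent: for `i ≠ k` and all complex embeddings `φ` of `K i` and `ψ` of
`K k` some automorphism of `ℂ` is the identity on `φ (K i)` and the complex conjugation on `ψ (K k)`
(this is no condition if there is only one field). We fix an isomorphism `ν` of the algebraic closure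
of `ℚ_p` with `ℂ`; it defines a `p`-adic valuation of `ℂ`, with the value one at `p`. Let `M i` be a
function with nonzero integral values, all of which divide `n i`, on the complex embeddings of
`K i`, invariant under complex conjugation. A CM type `Φ i` of `K i` (a choice of one element out of
each complex conjugate pair of embeddings; there are `2 ^ (g i)` types), `M i` and a real number
`κ ≠ 0` prescribe the slopes `(a + κ M) / 2` (at the embeddings in `Φ i`) and `(a - κ M) / 2` (outside
of `Φ i`) of a Weil number for `p ^ a` in `K i` (`HasType`). The case `M = 1`, `κ = a` is the case of
ordinary abelian varieties.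

There are `2 ^ (∑ i, g i)` families of CM types `Φ i` of the fields `K i`. A family is exceptional
(`exceptionalFamilies ν K M`) if the following statement (`Holds`) is false for it. Let `π i` be Weil
numbers for `q = p ^ a` that generate the fields `K i` and have the slope types `Φ i`, `M i`, and let
`f i` be monic polynomials whose complex roots are conjugates of `π i` (`IsPolyOf`). Let `A` be an
abelian variety over the field with `Q = q ^ s` elements which is isogenous to a product of powers of
abelian varieties coming from the field with `q` elements, with characteristic polynomials of
Frobenius `f i`, and let `Z` be **any** smooth projective variety over the field with `Q` elements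
such that the eigenvalues `ρ` of Frobenius on the cohomology of `Z` and their conjugates are unrelated
to the fields `K i` (`UnrelatedTo`): a function `n` on the complex embeddings of `K i` with
`n (conj φ) = - n φ` which is invariant under all automorphisms of `ℂ` that fix a power of `ρ` is
zero. This is so, for instance, if a power of `ρ` lies in a field linearly disjoint from the normal
closures of the `K i`, or in a totally real field, or if the degree of `ρ` is less than `2 g i` and
the representation of the Galois group on the functions `n` is irreducible, as it is for generic CM
fields.

Let `β i` be the rank of `A^i_num(A)`, the group of the cycles of codimension `i` modulo numerical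
equivalence. Then (`PoleTimes`) `β i > 0` for `0 ≤ i ≤ dim A` and, for all `c`,

* `rk A^c_num(A × Z) = ∑ i, β i * rk A^(c - i)_num(Z)`;
* the order of the pole of `ζ(A × Z, s)` at `s = c` is `∑ i, β i` times the order of the pole of
  `ζ(Z, s)` at `s = c - i` (the zeta functions relative to the field with `Q` elements; as all `s` are
  allowed, this holds over all finite extensions);
* so the defects `δ_c(Z)`, the order of the pole at `s = c` minus the rank of `A^c_num(Z)`, satisfy
  `δ_c(A × Z) = ∑ i, β i * δ_(c - i)(Z)`, and by the Riemann hypothesis (Deligne; `IsPure`) they are
  not negative, hence **the formula of Tate for `A × Z` at `s = c` is equivalent to the formula of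
  Tate for `Z` at `s = c - i` for `0 ≤ i ≤ dim A`, `i ≤ c`.**

So the formula holds for `A × Z` for all `c` for instance if `Z` is a product of curves which
satisfies it, and it holds at `s = 0`, `s = 1` for all unrelated `Z` for which it holds at `s = 1`. The
first two equalities are exact, whether or not the conjecture of Tate is true for `Z`: a pole of
excessive order for a product `A × Z` always comes from one of `Z`, with the multiplicity given by
the cycles on `A`. Nothing is assumed on `Z`: neither the semisimplicity of Frobenius nor the
coincidence of homological and numerical equivalence. The cohomology is any Weil cohomology with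
algebraically closed coefficient field, for instance `ℓ`-adic cohomology with extended coefficients.

The theorem bounds the number of the exceptional families: it is at most
`2 ^ (∑ i, g i) * ∑ i, C * (n i) ^ 2 * rate (K i) (g i) (q i)`, with an absolute constant `C`. Here
`q i` is any prime factor of `g i` (or `q i = 1`), and `rate K g q` is `(1 + log (2 g)) ^ 16` times
the smaller of the numbers

* `W (K) / √g`, where (second part of the theorem, `WeightEstimate`) `W (K) ≤ N ^ 2 * D ^ (1 / 4)`;
  `N` is the number of the CM subfields of `K` (with `K`) and `D` is the largest degree of a CM
  subfield of `K` that is normal over `ℚ` with a nonabelian Galois group (`D = 1` if there are none);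
* `√g / q`.

So the exceptional types are a proportion `O (n ^ 2 * g ^ (-1 / 4) * (log g) ^ 16)` of all types of
all CM fields with a bounded number of CM subfields, and `O (n ^ 2 * g ^ (-1 / 2) * (log g) ^ 16)` if
the normal nonabelian ones have bounded degrees; and they are a proportion
`O (n ^ 2 * g ^ (-δ) * (log g) ^ 16)` of the types of all CM fields `K`, with any number of subfields,
whose degree is divisible by a prime number `q ≥ g ^ (1 / 2 + δ)`. The counting and the description of
the eigenvectors of Frobenius on `A × Z` are those of the starting files (`AllCMTypesTimes` of
MP_0f183b_ag, about the Tate conjecture for cohomology classes); new here are the ranks of the groups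
of cycles modulo numerical equivalence, the orders of the poles, and the defects.
-/

set_option autoImplicit false

namespace Pool.Agent.Results.MP_557161_ag.AllCMTypesTimes

open NumberField Module Pool.Agent.H204R3.CM Pool.Agent.H977R3.CM Pool.Agent.TH170
  Pool.Agent.Y1.KN Pool.Agent.Y1.CT Pool.Agent.Q70.CT

/-- The formulas for the poles and the cycles on `A × Z` hold for all abelian varieties `A` whose
Frobenius eigenvalues are powers of conjugates of Weil numbers with the slope types `Φ i`, `M i`, and
all `Z` unrelated to the fields `K i`. -/
def Holds {p : ℕ} [Fact p.Prime] (ν : PadicAlgCl p ≃+* ℂ) {I : Type} (K : I → Type)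
    [∀ i, Field (K i)] [∀ i, NumberField (K i)] [∀ i, IsCMField (K i)]
    (M : ∀ i, (K i →+* ℂ) → ℤ) (Φ : ∀ i, Set (K i →+* ℂ)) : Prop :=
  ForAllTypes ν K M (PoleTimes K) Φ

/-- The exceptional families of CM types. -/
def exceptionalFamilies {p : ℕ} [Fact p.Prime] (ν : PadicAlgCl p ≃+* ℂ) {I : Type} (K : I → Type)
    [∀ i, Field (K i)] [∀ i, NumberField (K i)] [∀ i, IsCMField (K i)]
    (M : ∀ i, (K i →+* ℂ) → ℤ) : Set (∀ i, Set (K i →+* ℂ)) :=
  {Φ | (∀ i, IsCMType (Φ i)) ∧ ¬ Holds ν K M Φ}

/-- **The orders of the poles of the zeta functions and the ranks of the groups of cycles of the
products `A × Z`, for the abelian varieties `A` of almost all slope types of all CM fields and all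
unrelated varieties `Z`.** -/
theorem result :
    (∃ C : ℝ, 0 ≤ C ∧ ∀ (p : ℕ) [Fact p.Prime] (ν : PadicAlgCl p ≃+* ℂ) (I : Type) [Fintype I]
      (K : I → Type) [∀ i, Field (K i)] [∀ i, NumberField (K i)] [∀ i, IsCMField (K i)]
      (M : ∀ i, (K i →+* ℂ) → ℤ) (n g q : I → ℕ), PairwiseIndep K →
      (∀ i φ, M i (ComplexEmbedding.conjugate φ) = M i φ) → (∀ i, n i ≠ 0) →
      (∀ i φ, M i φ ∣ (n i : ℤ)) → (∀ i, finrank ℚ (K i) = 2 * g i) →
      (∀ i, q i ∣ g i ∧ (q i = 1 ∨ (q i).Prime)) →
      ((exceptionalFamilies ν K M).ncard : ℝ) ≤
        2 ^ (∑ i, g i) * ∑ i, C * (n i : ℝ) ^ 2 * rate (K i) (g i) (q i)) ∧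
    WeightEstimate := by
  obtain ⟨C, hC0, hC⟩ := ncard_of_unrel
  refine ⟨⟨C, hC0, ?_⟩, weight_estimate_holds⟩
  intro p _ ν I _ K _ _ _ M n g q hind hM hn hMn hg hq
  exact hC p ν I K M n g q hind hM hn hMn hg hq _ fun Q f hQ hR => poleTimes hQ hR

end Pool.Agent.Results.MP_557161_ag.AllCMTypesTimes
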