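import Pool.Agent.Q70.LA.T

/-!
# Tate's conjecture on the orders of poles reduces to one integer in odd dimensions

Let `W` be a Weil cohomology theory for the smooth projective varieties over an algebraic closure of the
field with `p` elements, with Frobenius endomorphisms `Φ` (`FrobSystem`) which satisfy the Riemann
hypothesis (`hRH`: a theorem of Deligne for the `ℓ`-adic cohomology). `PoleFormula Φ σ X j` is the
formula of Tate for `X` at the integer `j`: over all sufficiently large finite fields the order of the
zeta function of `X` at `s = j` is the negative of the rank of the group of the cycles of codimension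
`j` on `X` modulo numerical equivalence. `SemisimpleTateIn Φ X j`: the generalised eigenspaces of the
Frobenius endomorphisms for the eigenvalue `q ^ j` in `H^(2 j)(X)` are spanned by classes of cycles.

1. Let `D` be a divisor with hard Lefschetz on `X`, `n = dim X`, and let `Y` be a smooth hyperplane
section of `X` that belongs to `D` (`IsSection`). For the variety `X × Y`, of dimension `2 n - 1`, the
formula of Tate at the **one** integer `n - 1` is equivalent to the formula at `n`, to the formula at all
integers `0 ≤ j ≤ 2 n - 1`, and to `SemisimpleTateIn` in codimension `n - 1`. It implies the formula for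
`X` and for `Y` at all integers and the Lefschetz standard conjecture B for `X`.

2. Let `Pol` be a class of polarized varieties which is closed under the products in 1 (for example all
smooth projective varieties with the hyperplane classes of all projective embeddings). The formula of
Tate for all varieties in `Pol` and all integers is equivalent to the formula at the integer `m` for the
varieties of odd dimension `2 m + 1`, to the formula at `m + 1` for these varieties, and to
`SemisimpleTateIn` in codimension `m` for these varieties.

So the conjecture on all poles of the zeta functions of all varieties is a statement on the pole at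
`s = m` for the varieties of dimension `2 m + 1` (next to the centre `m + 1 / 2` of the functional
equation); a counterexample exists there, if there is one at all. Moreover the equality of homological
and numerical equivalence, which is part of the formula, may be replaced there by semisimplicity.

Statement 1 is a theorem of the starting tree (`W534`) which is not used in a hand-in there; statement 2
is new. (The index law of the starting files, `IndexLaw`, and `OneInequality` in MP_0f183b_ag, are about
the high powers of one variety and the central pole.)
-/

set_option autoImplicit false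

open CategoryTheory AlgebraicGeometry

universe u v

namespace Pool.Agent.Results.MP_557161_ag.OnePole

open Pool.Agent.H914 Pool.Agent.H447 Pool.Agent.W534 VarClass Obj WeilCohomology Pool.Agent.Q70.LA

/-- **One pole suffices.** -/
theorem result {k : Type u} [Field k] {𝒱 : VarClass k} {ops : CycleOps 𝒱}
    (W : WeilCohomology.{u, v} ops) (p : ℕ) (hp : 1 < p) (Φ : FrobSystem W p) (σ : W.K →+* ℂ)
    (hRH : ∀ Z : 𝒱.Obj, RiemannHyp Φ σ Z) :
    (∀ (X Y : 𝒱.Obj) (i : Y ⟶ X) (D : X.Cycles), X.IsCyc 1 D → HardLefschetz W X D →
      IsSection W i D →
      List.TFAE [
        PoleFormula Φ σ (X.prod Y) Y.dim,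
        PoleFormula Φ σ (X.prod Y) X.dim,
        ∀ j ≤ (X.prod Y).dim, PoleFormula Φ σ (X.prod Y) j,
        SemisimpleTateIn Φ (X.prod Y) Y.dim] ∧
      (PoleFormula Φ σ (X.prod Y) Y.dim → LefschetzB W X D ∧
        (∀ j ≤ X.dim, PoleFormula Φ σ X j) ∧ ∀ j ≤ Y.dim, PoleFormula Φ σ Y j)) ∧
    (∀ Pol : ∀ X : 𝒱.Obj, X.Cycles → Prop, SectionClass W Pol →
      List.TFAE [
        ∀ (X : 𝒱.Obj) (D : X.Cycles), Pol X D → ∀ j ≤ X.dim, PoleFormula Φ σ X j,
        ∀ (X : 𝒱.Obj) (D : X.Cycles), Pol X D → ∀ m, X.dim = 2 * m + 1 → PoleFormula Φ σ X m,
        ∀ (X : 𝒱.Obj) (D : X.Cycles), Pol X D → ∀ m, X.dim = 2 * m + 1 →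
          PoleFormula Φ σ X (m + 1),
        ∀ (X : 𝒱.Obj) (D : X.Cycles), Pol X D → ∀ m, X.dim = 2 * m + 1 →
          SemisimpleTateIn Φ X m]) :=
  ⟨fun _ _ _ _ hD hHL hY => ⟨pole_hyperplane hp hRH hY.dim hD hY.cls hHL hY.weak,
    fun h => pole_factors hp hRH hY.dim hD hY.cls hHL hY.weak h⟩,
    fun _ h => pole_tfae hp hRH h⟩

end Pool.Agent.Results.MP_557161_ag.OnePole
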