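import Pool.Agent.W547.UB.Tate

/-!
# The poles of the zeta functions of ordinary abelian varieties in independent blocks

Let `A₀` be an ordinary abelian variety over the field with `q = p ^ a` elements, isogenous (after a
finite extension of the base field) to a product of any number of absolutely simple abelian varieties
`A₀ i` with complex multiplication by CM fields `E i` containing their Frobenius endomorphisms `π i`.
Its canonical lift is isogenous to the product `X` of the abelian varieties `A i` with complex
multiplication by `E i` and the CM types `Φ i` given by the embeddings `φ` for which `φ (π i)` has
slope one.

The factors are divided into blocks (the block of the factor `A i` is `b i`), such that for each block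
there is an automorphism of the field of complex numbers that acts as the complex conjugation on all
embeddings of the CM fields in this block and trivially on all embeddings of the CM fields in the
other blocks (the intersection of the Galois closure of the fields of the block with the compositum of
the Galois closures of the other fields is totally real; for one block this is no condition). Each
block is of one of the following kinds (`GoodBlock`):

* its factors have dimension at most three, and any two of them whose CM fields have the same Galois
  closure over `ℚ` have isomorphic CM types, unless these CM fields are Galois over `ℚ`;
* its factors are factors (up to isogeny) of one abelian variety of CM type of dimension at most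
  five, each with any multiplicity;
* its factors have the same CM type, with a CM field of degree at most fourteen;
* its factors are factors (up to isogeny) of one nondegenerate abelian variety of CM type, of
  arbitrary dimension, each with any multiplicity.

For example `X` may be any power of any abelian variety of CM type of dimension at most five, or any
power of a simple abelian variety of CM type of dimension at most seven, or a product of such powers
for which the Galois closures of the CM fields are linearly disjoint.

`V` is the first cohomology group of `A₀` with complex coefficients (`K ⊗ H_1(X, ℚ)` for an embedding
in `ℂ` of the coefficient field of a Weil cohomology theory; the theorem holds for all of them), with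
the Frobenius endomorphism `F`; so the zeta function of `A₀` over the extension of degree `s` of the
base field is the product `zeta` of the `det (1 - q ^ (-s z) F ^ s | Λ ^ j V) ^ ((-1) ^ (j + 1))`.

The theorem, for every extension of the base field (of degree `s ≥ 1`):

* there are systems of rational vector spaces `A n ⊆ H^{2n}(A₀)` with the following properties of the
  spaces of the rational linear combinations of classes of algebraic cycles of codimension `n`
  (`IsCycleSystem`): they consist of Tate classes, they contain the Tate classes that
  lift to classes on `X` in the ring generated by the divisor classes and the pull-backs
  of the split Weil classes, of imaginary quadratic fields, on abelian fourfolds and sixfolds of CM type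
  (Lefschetz; Markman), and intersection numbers are rational;
* for every such system and every `n ≥ 0`, every class in `A n` that is numerically trivial is zero,
  and **the order of the zeta function of `A₀` at `n` is `-dim A n`**.

So Tate's formula `ord_{s = n} ζ(A₀, s) = - rk A^n_num(A₀)` holds for `A₀` over all finite extensions
of the base field. In most cases there are Tate classes which do not belong to the ring generated by
divisors.
-/

namespace Pool.Agent.Results.MP_557161_ag.OrdinaryBlocksPole

open Module Pool.Agent.W547.KB Pool.Agent.W547.LD Pool.Agent.W530.NF Pool.Agent.W547.LN
open Pool.Agent.W547.DP Pool.Agent.W547.UB

/-- Tate's formula for the orders of the poles of the zeta functions of the ordinary abelian variety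
`A₀` with canonical lift `X`, in independent blocks, over all extensions of the base field. -/
theorem result (p : ℕ) [Fact p.Prime] (a : ℕ) (ha : 0 < a) (ν : PadicAlgCl p ≃+* ℂ)
    (X : CMAV) {J : Type} (b : X.I → J) (hX : IndependentBlocks X b)
    (π : X.H1) (hπ : IsCanonicalLift p a ν X π) (hw : IsWeilNumber (p ^ a) X π)
    {V : Type} [AddCommGroup V] [Module ℂ V] (C : Comparison X ℂ V) (F : V →ₗ[ℂ] V)
    (hF : IsFrobeniusMap C π F) (s : ℕ) (hs : 0 < s) :
    (∃ A, IsCycleSystem C (F ^ s) ((p ^ a) ^ s) A) ∧
    ∀ A : ∀ n : ℕ, Submodule ℚ (V [⋀^Fin (2 * n)]→ₗ[ℂ] ℂ),
      IsCycleSystem C (F ^ s) ((p ^ a) ^ s) A → ∀ n : ℕ,
        (∀ z ∈ A n, IsNumericallyTrivial C A z → z = 0) ∧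
        meromorphicOrderAt (Pool.Agent.H868R3.TwoOdd.zeta (((p ^ a) ^ s : ℕ) : ℝ) (F ^ s)) (n : ℂ) =
          ((-(finrank ℚ (A n) : ℤ) : ℤ) : WithTop ℤ) :=
  Pool.Agent.W547.UB.pole X b hX p a ha ν π hπ hw C F hF s hs

end Pool.Agent.Results.MP_557161_ag.OrdinaryBlocksPole
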