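import Pool.Agent.Q63.PB.Main

/-!
# Tate's formula for the poles of the zeta functions of powers up to a polynomial factor

Let `X` be any smooth projective variety over an algebraic closure of a finite field, of dimension `d`
and with total Betti number `b`. Over all sufficiently large finite fields let `z n j` be the order of
the pole at the integer `j` of the zeta function of `X ^ (2 n + 2)`. The conjecture of Tate says that it
is the rank of the group of the cycles of codimension `j` modulo numerical equivalence. We prove that

`∑ j, z n j ≤ b ^ (2 n + 2) ≤ (n + 2) ^ (b ^ 2) * r n`,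

where `r n` is the rank of the cycles of the middle codimension `(n + 1) d` alone. So the formula of
Tate for all even powers of `X` holds up to a factor which grows at most like a fixed power of `n`,
while `b ^ (2 n + 2)`, the dimension of the whole cohomology of `X ^ (2 n + 2)`, grows exponentially;
in particular at least the proportion `(n + 2) ^ (- b ^ 2)` of all (generalised) Tate classes on
`X ^ (2 n + 2)`, and even of all cohomology classes, is accounted for by algebraic cycles modulo
numerical equivalence.

The graphs of the permutations of the factors of `X ^ (n + 1)` span a semisimple algebra of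
correspondences, whose commutant has dimension at most `(n + 2) ^ (b ^ 2)`; as the parity operator is
algebraic (by the Riemann hypothesis), this algebra contains no nonzero numerically trivial
correspondence.
-/

set_option autoImplicit false

open CategoryTheory AlgebraicGeometry

universe u v

namespace Pool.Agent.Results.MP_557161_ag.PolynomialBound

open Pool.Agent.H914 Pool.Agent.W534 VarClass Obj WeilCohomology Pool.Agent.Y163

/-- Tate's formula for the poles up to a polynomial factor: `sq X n` is `X ^ (2 n + 2)`, `z n j` is the
order of the pole at `j` of its zeta function over all sufficiently large finite fields, and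
`numRank ops (sq X n) j` is the rank of its cycles of codimension `j` modulo numerical equivalence. -/
theorem result {k : Type u} [Field k] {𝒱 : VarClass k} {ops : CycleOps 𝒱}
    (W : WeilCohomology.{u, v} ops) [IsAlgClosed W.K] (σ : W.K →+* ℂ) (p : ℕ) (hp : p.Prime)
    (Φ : FrobSystem W p) (hRH : ∀ Z : 𝒱.Obj, RiemannHyp Φ σ Z) (X : 𝒱.Obj) :
    ∃ z : ℕ → ℕ → ℕ,
      (∀ n, ∀ j ≤ (sq X n).dim, PoleOrderIs Φ σ (sq X n) j (z n j)) ∧
      (∀ n, ∀ j ≤ (sq X n).dim, numRank ops (sq X n) j ≤ z n j) ∧
      ∀ n, (∑ j ∈ Finset.range ((sq X n).dim + 1), z n j ≤
          Module.finrank W.K (W.H X) ^ (2 * (n + 1))) ∧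
        Module.finrank W.K (W.H X) ^ (2 * (n + 1)) ≤
          (n + 2) ^ (Module.finrank W.K (W.H X) ^ 2) *
            numRank ops (sq X n) ((n + 1) * X.dim) :=
  Pool.Agent.Q63.PB.main Φ hp.one_lt σ hRH X

end Pool.Agent.Results.MP_557161_ag.PolynomialBound
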